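import Pool.Agent.H83.AR.Targets
import Pool.Agent.H54.LS.AVG

/-! Module RB: the multiplier of the local smoothing problem in polar coordinates. -/

set_option autoImplicit false

namespace Pool.Agent.H33.AR

open MeasureTheory Set FourierTransform
open Pool.Agent.H83.LS Pool.Agent.H93.AR Pool.Agent.H54.LS Pool.Agent.H14.LS Pool.Agent.H83.AR
open scoped ENNReal NNReal SchwartzMap

/-! ### the half plane -/

/-- the right half plane -/
def HP : Set (ℝ × ℝ) := {ζ : ℝ × ℝ | 0 < ζ.1}

theorem HP_meas : MeasurableSet HP := measurableSet_lt measurable_const measurable_fst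

/-- the radial measure as a weighted measure on the line -/
theorem mp_nu (n : ℕ) : MeasurePreserving (Subtype.val : Ioi (0 : ℝ) → ℝ) (nu n)
    ((volume.restrict (Ioi 0)).withDensity (fun x => ENNReal.ofReal (x ^ (n - 1)))) := by
  refine ⟨measurable_subtype_coe, ?_⟩
  ext A hA
  rw [Measure.map_apply measurable_subtype_coe hA, withDensity_apply _ hA]
  unfold nu Measure.volumeIoiPow
  rw [withDensity_apply _ (measurable_subtype_coe hA)]
  have h1 := (measurePreserving_subtype_coe (μa := (volume : Measure ℝ))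
    (measurableSet_Ioi (a := (0 : ℝ))))
  exact h1.setLIntegral_comp_preimage hA
    (f := fun x : ℝ => ENNReal.ofReal (x ^ (n - 1))) (by fun_prop)

/-- the radial measure as a weighted measure on the half plane -/
theorem mp_half (n : ℕ) : MeasurePreserving (fun q : Ioi (0 : ℝ) × ℝ => ((q.1 : ℝ), q.2))
    ((nu n).prod volume)
    ((volume.restrict HP).withDensity (fun ζ => ENNReal.ofReal (ζ.1 ^ (n - 1)))) := by
  have h1 : MeasurePreserving (Prod.map (Subtype.val : Ioi (0 : ℝ) → ℝ) (id : ℝ → ℝ))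
      ((nu n).prod volume) (((volume.restrict (Ioi 0)).withDensity
        (fun x => ENNReal.ofReal (x ^ (n - 1)))).prod volume) :=
    (mp_nu n).prod (MeasurePreserving.id volume)
  have h2 : (((volume.restrict (Ioi 0)).withDensity
        (fun x => ENNReal.ofReal (x ^ (n - 1)))).prod (volume : Measure ℝ)) =
      ((volume.restrict HP).withDensity (fun ζ => ENNReal.ofReal (ζ.1 ^ (n - 1)))) := by
    rw [prod_withDensity_left (by fun_prop)]
    congr 1
    have h3 : HP = Ioi (0 : ℝ) ×ˢ (univ : Set ℝ) := by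
      ext ζ
      simp [HP]
    rw [h3, Measure.volume_eq_prod, ← Measure.prod_restrict, Measure.restrict_univ]
  rw [h2] at h1
  exact h1

/-- integrals over the half plane -/
theorem int_half (n : ℕ) (K : ℝ × ℝ → ℂ) (hK : Measurable K) :
    ∫ q : Ioi (0 : ℝ) × ℝ, K ((q.1 : ℝ), q.2) ∂((nu n).prod volume) =
      ∫ ζ in HP, ((ζ.1 ^ (n - 1) : ℝ) : ℂ) * K ζ := by
  rw [integral_mp (mp_half n) hK.aestronglyMeasurable,
    integral_withDensity_eq_integral_toReal_smul₀ (by fun_prop)
      (ae_of_all _ fun _ => ENNReal.ofReal_lt_top)]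
  refine setIntegral_congr_fun HP_meas fun ζ hζ => ?_
  have hζ' : 0 < ζ.1 := hζ
  rw [ENNReal.toReal_ofReal (by positivity), Complex.real_smul]

/-! ### measurability of `ZL` -/

theorem meas_ZL {n : ℕ} {L : ℝ} (zm : Measurable fun q : EE n × EE n => zk n L q.1 q.2)
    (r : ℝ) (w : EE n) (v : EE n) : Measurable fun ζ : ℝ × ℝ => ZL n L (r * ζ.1) w v := by
  have h1 : StronglyMeasurable fun q : (ℝ × ℝ) × Sp n =>
      e (-(r * q.1.1 * inner ℝ w (q.2 : EE n))) * ((zk n L (q.2 : EE n) v : ℝ) : ℂ) := by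
    apply Measurable.stronglyMeasurable
    apply Measurable.mul
    · apply measurable_e.comp
      have h3 : Measurable fun q : (ℝ × ℝ) × Sp n => inner ℝ w (q.2 : EE n) :=
        measurable_const.inner (measurable_subtype_coe.comp measurable_snd)
      exact ((measurable_const.mul (measurable_fst.comp measurable_fst)).mul h3).neg
    · have h4 : Measurable fun q : (ℝ × ℝ) × Sp n => ((q.2 : EE n), v) :=
        (measurable_subtype_coe.comp measurable_snd).prodMk measurable_const
      have h5 := Complex.measurable_ofReal.comp (zm.comp h4)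
      exact h5
  exact (StronglyMeasurable.integral_prod_right' (ν := sg n) h1).measurable

/-- the conjugate of `ZL` -/
theorem conj_ZL {n : ℕ} (L τ : ℝ) (u v : EE n) : (starRingEnd ℂ) (ZL n L τ u v) =
    ∫ w : Sp n, e (τ * inner ℝ u (w : EE n)) * ((zk n L (w : EE n) v : ℝ) : ℂ) ∂(sg n) := by
  unfold ZL
  rw [← integral_conj]
  refine integral_congr_ae (ae_of_all _ fun w => ?_)
  simp only
  rw [map_mul, conj_e, neg_neg, Complex.conj_ofReal]

/-- the symbol of the piece in polar coordinates -/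
noncomputable def mc (lam Lam t : ℝ) (ζ : ℝ × ℝ) : ℂ :=
  e (t * Real.sqrt (ζ.1 ^ 2 + ζ.2 ^ 2)) *
    ((chi (Real.sqrt (ζ.1 ^ 2 + ζ.2 ^ 2) / lam) * chi (ζ.1 / Lam) : ℝ) : ℂ)

theorem mc_meas (lam Lam t : ℝ) : Measurable (mc lam Lam t) := by
  unfold mc
  apply Measurable.mul
  · exact measurable_e.comp (by fun_prop)
  · apply Complex.measurable_ofReal.comp
    apply Measurable.mul
    · exact chi_smooth.continuous.measurable.comp (by fun_prop)
    · exact chi_smooth.continuous.measurable.comp (by fun_prop)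

theorem mj_cyl {n : ℕ} (lam Lam t : ℝ) (u : Sp n) (ρ : Ioi (0 : ℝ)) (y : ℝ) :
    mj n lam Lam t (jo ((ρ : ℝ) • (u : EE n)) y) = mc lam Lam t ((ρ : ℝ), y) := by
  unfold mj mc
  have h1 : ‖jo ((ρ : ℝ) • (u : EE n)) y‖ = Real.sqrt ((ρ : ℝ) ^ 2 + y ^ 2) := by
    rw [← Real.sqrt_sq (norm_nonneg (jo ((ρ : ℝ) • (u : EE n)) y)), jo_norm_sq, norm_smul, norm_sp,
      mul_one, Real.norm_of_nonneg (le_of_lt ρ.2)]
  rw [h1, hor_cyl]

theorem AL_cyl {n : ℕ} (L : ℝ) (h : EE (n + 1) → ℂ) (u : Sp n) (ρ : Ioi (0 : ℝ)) (y : ℝ) :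
    AL L h (jo ((ρ : ℝ) • (u : EE n)) y) =
      ∫ v : Sp n, ((zk n L u v : ℝ) : ℂ) * h (jo ((ρ : ℝ) • (v : EE n)) y) ∂(sg n) := by
  unfold AL
  rw [hor_cyl, pr_jo, jo_last, smul_smul, inv_mul_cancel₀ (ne_of_gt ρ.2), one_smul]

theorem meas_jo {α : Type*} [MeasurableSpace α] {n : ℕ} {a : α → ℝ} {v : α → EE n} {b : α → ℝ}
    (ha : Measurable a) (hv : Measurable v) (hb : Measurable b) :
    Measurable fun x => jo (a x • v x) (b x) :=
  (continuous_jo (n := n)).measurable.comp ((ha.smul hv).prodMk hb)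

theorem pf_rb (hAF : T_AF) (hAM : T_AM) (hZB : T_ZB) : T_RB := by
  intro n L lam Lam t B r z f w hn hL hlam hLam hf hr
  have hn1 : 1 ≤ n := by omega
  obtain ⟨C₀, hC₀⟩ := hZB n hn1
  obtain ⟨zm, -, z0, zb, -, -, -⟩ := hC₀ L hL
  obtain ⟨am1, am2, -, am4, -, -⟩ := hAM n L hn1 hL
  have hfi : Integrable f := bcd_int hf
  obtain ⟨F, hF⟩ : ∃ F, F = AL L f := ⟨_, rfl⟩
  rw [← hF]
  have hFm : Measurable F := by rw [hF]; exact am1 f hf.1
  have hFi : Integrable F := by rw [hF]; exact am4 f hf.1 hfi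
  have hFb : ∀ x, ‖F x‖ ≤ B := by rw [hF]; exact am2 f B hf.1 hf.2.1
  have hG : ∀ ξ, 𝓕 (AL L F) ξ = AL L (𝓕 F) ξ := hAF n L F hn1 hL hFm hFi ⟨B, hFb⟩
  obtain ⟨h, hh⟩ : ∃ h, h = 𝓕 F := ⟨_, rfl⟩
  rw [← hh] at hG ⊢
  have hhm : Measurable h := by rw [hh]; exact fourier_meas' hFi
  obtain ⟨H, hH⟩ : ∃ H : ℝ, H = ∫ y, ‖F y‖ := ⟨_, rfl⟩
  have hhb : ∀ ξ, ‖h ξ‖ ≤ H := by
    intro ξ
    rw [hh, Pool.Agent.H19.LS.fourier_e, hH]
    refine (norm_integral_le_integral_norm _).trans (le_of_eq ?_)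
    congr 1; ext y
    rw [norm_mul, norm_e, one_mul]
  have hH0 : 0 ≤ H := (norm_nonneg _).trans (hhb 0)
  have hGm : Measurable (AL L h) := am1 h hhm
  have hGb : ∀ ξ, ‖AL L h ξ‖ ≤ H := am2 h H hhm hhb
  have hmi := mj_int n hlam Lam t
  -- the inner integrand
  obtain ⟨GG, hGG⟩ : ∃ GG : Sp n × (Ioi (0 : ℝ) × ℝ) → Sp n → ℂ, GG = fun (q : Sp n × (Ioi (0 : ℝ) × ℝ)) (v : Sp n) =>
      e (r * (q.2.1 : ℝ) * inner ℝ (w : EE n) (q.1 : EE n)) * (((zk n L q.1 v : ℝ) : ℂ) *
        (e (z * q.2.2) * (mc lam Lam t ((q.2.1 : ℝ), q.2.2) * h (jo ((q.2.1 : ℝ) • (v : EE n)) q.2.2)))) :=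
    ⟨_, rfl⟩
  obtain ⟨K, hK⟩ : ∃ K : ℝ, K = |C₀ * L ^ (n - 1)| * H := ⟨_, rfl⟩
  have hmc : Integrable (fun q : Sp n × (Ioi (0 : ℝ) × ℝ) => mc lam Lam t ((q.2.1 : ℝ), q.2.2))
      ((sg n).prod ((nu n).prod volume)) := by
    have h1 := (mp_cyl n hn1).integrable_comp_of_integrable hmi
    refine h1.congr (ae_of_all _ fun q => ?_)
    exact mj_cyl lam Lam t q.1 q.2.1 q.2.2
  have hGGb : ∀ q v, ‖GG q v‖ ≤ ‖mc lam Lam t ((q.2.1 : ℝ), q.2.2)‖ * K := by
    intro q v
    rw [hGG]
    simp only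
    rw [norm_mul, norm_e, one_mul, norm_mul, norm_mul, norm_e, one_mul, norm_mul,
      Complex.norm_real, Real.norm_eq_abs]
    have h1 : |zk n L q.1 v| ≤ |C₀ * L ^ (n - 1)| := by
      rw [abs_of_nonneg (z0 _ _)]
      exact (zb _ _ (norm_sp _) (norm_sp _)).trans (le_abs_self _)
    calc _ ≤ |C₀ * L ^ (n - 1)| * (‖mc lam Lam t ((q.2.1 : ℝ), q.2.2)‖ * H) := by
          gcongr
          exact hhb _
      _ = _ := by rw [hK]; ring
  have hGGm : Measurable (fun p : (Sp n × (Ioi (0 : ℝ) × ℝ)) × Sp n => GG p.1 p.2) := by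
    rw [hGG]
    have mu : Measurable fun p : (Sp n × (Ioi (0 : ℝ) × ℝ)) × Sp n => (p.1.1 : EE n) :=
      measurable_subtype_coe.comp (measurable_fst.comp measurable_fst)
    have mv : Measurable fun p : (Sp n × (Ioi (0 : ℝ) × ℝ)) × Sp n => (p.2 : EE n) :=
      measurable_subtype_coe.comp measurable_snd
    have mρ : Measurable fun p : (Sp n × (Ioi (0 : ℝ) × ℝ)) × Sp n => (p.1.2.1 : ℝ) :=
      measurable_subtype_coe.comp (measurable_fst.comp (measurable_snd.comp measurable_fst))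
    have my : Measurable fun p : (Sp n × (Ioi (0 : ℝ) × ℝ)) × Sp n => p.1.2.2 :=
      measurable_snd.comp (measurable_snd.comp measurable_fst)
    apply Measurable.mul
    · apply measurable_e.comp
      exact (measurable_const.mul mρ).mul (measurable_const.inner mu)
    · apply Measurable.mul
      · have h5 := Complex.measurable_ofReal.comp (zm.comp (mu.prodMk mv))
        exact h5
      · apply Measurable.mul
        · exact measurable_e.comp (measurable_const.mul my)
        · apply Measurable.mul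
          · exact (mc_meas lam Lam t).comp (mρ.prodMk my)
          · exact hhm.comp (meas_jo mρ mv my)
  have hGGi : Integrable (fun p : (Sp n × (Ioi (0 : ℝ) × ℝ)) × Sp n => GG p.1 p.2)
      (((sg n).prod ((nu n).prod volume)).prod (sg n)) := by
    have h1 : Integrable (fun p : (Sp n × (Ioi (0 : ℝ) × ℝ)) × Sp n =>
        ‖mc lam Lam t ((p.1.2.1 : ℝ), p.1.2.2)‖ * K) (((sg n).prod ((nu n).prod volume)).prod (sg n)) :=
      hmc.norm.mul_prod (integrable_const K)
    refine h1.mono' hGGm.aestronglyMeasurable (ae_of_all _ fun p => hGGb _ _)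
  have hGGi' : ∀ v : Sp n, Integrable (fun q : Sp n × (Ioi (0 : ℝ) × ℝ) => GG q v)
      ((sg n).prod ((nu n).prod volume)) := by
    intro v
    refine (hmc.norm.mul_const K).mono' ?_ (ae_of_all _ fun p => hGGb _ _)
    exact (hGGm.comp (measurable_id.prodMk measurable_const)).aestronglyMeasurable
  -- the outer integrand
  obtain ⟨KK', hKK⟩ : ∃ KK' : Sp n → ℝ × ℝ → ℂ, KK' = fun (v : Sp n) (ζ : ℝ × ℝ) =>
      (starRingEnd ℂ) (ZL n L (r * ζ.1) w v) *
        (e (z * ζ.2) * (mc lam Lam t ζ * h (jo (ζ.1 • (v : EE n)) ζ.2))) := ⟨_, rfl⟩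
  have hKKm : ∀ v, Measurable (KK' v) := by
    intro v
    rw [hKK]
    apply Measurable.mul
    · exact Complex.continuous_conj.measurable.comp (meas_ZL zm r w v)
    · apply Measurable.mul
      · exact measurable_e.comp (by fun_prop)
      · apply Measurable.mul (mc_meas lam Lam t)
        exact hhm.comp (meas_jo measurable_fst measurable_const measurable_snd)
  have main : MM (mj n lam Lam t) (AL L F) (jo (r • (w : EE n)) z) =
      ∫ v : Sp n, ∫ ζ in HP, ((ζ.1 ^ (n - 1) : ℝ) : ℂ) * KK' v ζ ∂volume ∂(sg n) := by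
    have hΦm : Measurable (fun ξ : EE (n + 1) => e (inner ℝ (jo (r • (w : EE n)) z) ξ) *
        (mj n lam Lam t ξ * AL L h ξ)) := by
      apply Measurable.mul
      · exact measurable_e.comp (by fun_prop)
      · exact (mj_meas' n lam Lam t).mul hGm
    calc MM (mj n lam Lam t) (AL L F) (jo (r • (w : EE n)) z)
        = ∫ ξ : EE (n + 1), e (inner ℝ (jo (r • (w : EE n)) z) ξ) *
            (mj n lam Lam t ξ * AL L h ξ) := by
          unfold MM
          simp_rw [hG]
      _ = ∫ q : Sp n × (Ioi (0 : ℝ) × ℝ), ∫ v : Sp n, GG q v ∂(sg n)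
            ∂((sg n).prod ((nu n).prod volume)) := by
          rw [← integral_mp (mp_cyl n hn1) hΦm.aestronglyMeasurable]
          refine integral_congr_ae (ae_of_all _ fun q => ?_)
          simp only
          rw [mj_cyl, AL_cyl, ← integral_const_mul, ← integral_const_mul]
          refine integral_congr_ae (ae_of_all _ fun v => ?_)
          simp only
          rw [hGG]
          simp only
          rw [jo_inner, inner_smul_left, inner_smul_right]
          have h2 : (starRingEnd ℝ) r * ((q.2.1 : ℝ) * inner ℝ (w : EE n) (q.1 : EE n)) +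
              z * q.2.2 = r * (q.2.1 : ℝ) * inner ℝ (w : EE n) (q.1 : EE n) + z * q.2.2 := by
            simp only [conj_trivial]
            ring
          rw [h2, e_add]
          ring
      _ = ∫ v : Sp n, ∫ q : Sp n × (Ioi (0 : ℝ) × ℝ), GG q v
            ∂((sg n).prod ((nu n).prod volume)) ∂(sg n) := integral_integral_swap hGGi
      _ = ∫ v : Sp n, ∫ ζ in HP, ((ζ.1 ^ (n - 1) : ℝ) : ℂ) * KK' v ζ ∂volume ∂(sg n) := by
          refine integral_congr_ae (ae_of_all _ fun v => ?_)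
          simp only
          rw [← int_half n _ (hKKm v), integral_prod_symm _ (hGGi' v)]
          refine integral_congr_ae (ae_of_all _ fun s => ?_)
          simp only
          rw [hKK]
          simp only
          rw [conj_ZL, ← integral_mul_const]
          refine integral_congr_ae (ae_of_all _ fun u => ?_)
          simp only
          rw [hGG]
          simp only
          ring
  rw [main, ← integral_const_mul]
  refine integral_congr_ae (ae_of_all _ fun v => ?_)
  simp only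
  rw [← integral_const_mul]
  refine setIntegral_congr_fun HP_meas fun ζ hζ => ?_
  have hζ' : 0 < ζ.1 := hζ
  rw [hKK]
  simp only
  unfold mc
  rw [e_add]
  have h3 : (ζ.1 ^ (n - 1) : ℝ) = ζ.1 ^ (((n : ℝ) - 1) / 2) * ζ.1 ^ (((n : ℝ) - 1) / 2) := by
    rw [← Real.rpow_add hζ', ← Real.rpow_natCast]
    congr 1
    rw [Nat.cast_sub hn1]
    push_cast
    ring
  rw [h3, Real.mul_rpow hr.le hζ'.le]
  push_cast
  ring

end Pool.Agent.H33.AR
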