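import Pool.Agent.H33.AR.RB
import Pool.Agent.H27.LS.RED2

/-! Module RO: reduction of the pieces of the multiplier to the plane. -/

set_option autoImplicit false

namespace Pool.Agent.H33.AR

open MeasureTheory Set FourierTransform
open Pool.Agent.H83.LS Pool.Agent.H93.AR Pool.Agent.H54.LS Pool.Agent.H14.LS Pool.Agent.H83.AR
open Pool.Agent.H83.LS.H27 (aa measurable_aa integrable_aa integrable_w2 hchis)
open scoped ENNReal NNReal SchwartzMap

/-! ### kernels in the plane -/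

/-- kernel in the plane with symbol `b` -/
noncomputable def kg (t : ℝ) (b : ℝ × ℝ → ℂ) (x : ℝ × ℝ) : ℂ :=
  ∫ ξ : ℝ × ℝ, e (x.1 * ξ.1 + x.2 * ξ.2 + t * Real.sqrt (ξ.1 ^ 2 + ξ.2 ^ 2)) * b ξ

theorem cv_kg (t : ℝ) (b : ℝ × ℝ → ℂ) (hb : Integrable b) (g : ℝ × ℝ → ℂ) (hg : Integrable g)
    (x : ℝ × ℝ) :
    cv (kg t b) g x = ∫ ξ : ℝ × ℝ,
      e (x.1 * ξ.1 + x.2 * ξ.2 + t * Real.sqrt (ξ.1 ^ 2 + ξ.2 ^ 2)) * (b ξ * Ff g ξ) := by
  have hint : Integrable (fun q : (ℝ × ℝ) × (ℝ × ℝ) =>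
      e ((x.1 - q.1.1) * q.2.1 + (x.2 - q.1.2) * q.2.2 + t * Real.sqrt (q.2.1 ^ 2 + q.2.2 ^ 2)) *
        (g q.1 * b q.2)) := by
    apply (hg.mul_prod hb).bdd_mul (c := 1)
    · exact (measurable_e.comp (by fun_prop)).aestronglyMeasurable
    · exact Filter.Eventually.of_forall (fun ζ => (norm_e _).le)
  calc
    _ = ∫ y : ℝ × ℝ, ∫ ξ : ℝ × ℝ, e ((x.1 - y.1) * ξ.1 + (x.2 - y.2) * ξ.2 +
        t * Real.sqrt (ξ.1 ^ 2 + ξ.2 ^ 2)) * (g y * b ξ) := by
        unfold cv kg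
        congr 1
        ext y
        rw [← integral_mul_const]
        congr 1
        ext ξ
        simp only [Prod.fst_sub, Prod.snd_sub]
        ring
    _ = ∫ ξ : ℝ × ℝ, ∫ y : ℝ × ℝ, e ((x.1 - y.1) * ξ.1 + (x.2 - y.2) * ξ.2 +
        t * Real.sqrt (ξ.1 ^ 2 + ξ.2 ^ 2)) * (g y * b ξ) :=
        integral_integral_swap hint
    _ = _ := by
        congr 1
        ext ξ
        unfold Ff
        rw [← mul_assoc, ← integral_const_mul]
        congr 1
        ext y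
        rw [show (x.1 - y.1) * ξ.1 + (x.2 - y.2) * ξ.2 + t * Real.sqrt (ξ.1 ^ 2 + ξ.2 ^ 2) =
          (x.1 * ξ.1 + x.2 * ξ.2 + t * Real.sqrt (ξ.1 ^ 2 + ξ.2 ^ 2)) +
          (-(y.1 * ξ.1 + y.2 * ξ.2)) by ring, e_add]
        ring

/-! ### one dimensional inversion -/

theorem cont_ZL {n : ℕ} {L C : ℝ} (zm : Measurable fun q : EE n × EE n => zk n L q.1 q.2)
    (zb : ∀ u v : Sp n, |zk n L u v| ≤ C) (w v : Sp n) :
    Continuous fun τ : ℝ => ZL n L τ (w : EE n) (v : EE n) := by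
  unfold ZL
  refine continuous_of_dominated (bound := fun _ => C) ?_ ?_ (integrable_const C) ?_
  · intro τ
    apply Measurable.aestronglyMeasurable
    apply Measurable.mul
    · apply measurable_e.comp
      have h3 : Measurable fun q : Sp n => inner ℝ (w : EE n) (q : EE n) :=
        measurable_const.inner measurable_subtype_coe
      exact (measurable_const.mul h3).neg
    · have h4 : Measurable fun q : Sp n => ((q : EE n), (v : EE n)) :=
        measurable_subtype_coe.prodMk measurable_const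
      have h5 := Complex.measurable_ofReal.comp (zm.comp h4)
      exact h5
  · intro τ
    refine ae_of_all _ fun u => ?_
    rw [norm_mul, norm_e, one_mul, Complex.norm_real, Real.norm_eq_abs]
    exact zb u v
  · refine ae_of_all _ fun u => ?_
    exact (continuous_e.comp (by fun_prop)).mul continuous_const

/-- the frequency side of the kernel `kz` -/
noncomputable def gz (n : ℕ) (L Lam r : ℝ) (w v : EE n) (s : ℝ) : ℂ :=
  ((chis (s / Lam) * |r * s| ^ (((n : ℝ) - 1) / 2) : ℝ) : ℂ) * ZL n L (r * s) w v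

theorem gz_neg (n : ℕ) (L Lam r : ℝ) (w v : EE n) (s : ℝ) (hL : 0 < Lam) (hs : s ≤ 0) :
    gz n L Lam r w v s = 0 := by
  unfold gz
  have : chis (s / Lam) = 0 := by
    by_contra h
    have h1 := (hchis _ h).1
    have h2 : s / Lam ≤ 0 := div_nonpos_of_nonpos_of_nonneg hs hL.le
    linarith
  rw [this]
  simp

theorem kz_eq (n : ℕ) (L Lam x r : ℝ) (w v : EE n) (hL : 0 < Lam) (hr : 0 < r) :
    ((Lam : ℝ) : ℂ) * kz n L (fun s => ((chis s : ℝ) : ℂ)) (Lam * x) (Lam * r) w v =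
      ∫ s : ℝ, e (x * s) * gz n L Lam r w v s := by
  have h := Measure.integral_comp_mul_left (fun s : ℝ => e (x * s) * gz n L Lam r w v s) Lam
  have h2 : kz n L (fun s => ((chis s : ℝ) : ℂ)) (Lam * x) (Lam * r) w v =
      ∫ s : ℝ, e (x * (Lam * s)) * gz n L Lam r w v (Lam * s) := by
    unfold kz
    rw [← integral_indicator measurableSet_Ioi]
    congr 1
    ext s
    by_cases hs : s ∈ Ioi (0 : ℝ)
    · have hs' : 0 < s := hs
      rw [indicator_of_mem hs]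
      unfold gz ZL
      have h3 : Lam * s / Lam = s := by field_simp
      have h4 : |r * (Lam * s)| = Lam * r * s := by
        rw [abs_of_pos (by positivity)]; ring
      rw [h3, h4, show x * (Lam * s) = Lam * x * s by ring,
        show r * (Lam * s) = Lam * r * s by ring]
      push_cast
      ring
    · rw [indicator_of_notMem hs, gz_neg n L Lam r w v _ hL]
      · simp
      · simp only [mem_Ioi, not_lt] at hs
        exact mul_nonpos_of_nonneg_of_nonpos hL.le hs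
  rw [h2, h, abs_of_pos (inv_pos.mpr hL)]
  rw [Complex.real_smul, ← mul_assoc]
  push_cast
  rw [mul_inv_cancel₀ (by exact_mod_cast hL.ne'), one_mul]

theorem cont_gz {n : ℕ} (hn : 2 ≤ n) {L C : ℝ}
    (zm : Measurable fun q : EE n × EE n => zk n L q.1 q.2)
    (zb : ∀ u v : Sp n, |zk n L u v| ≤ C) (w v : Sp n) (Lam r : ℝ) :
    Continuous (gz n L Lam r w v) := by
  unfold gz
  have hn' : (2 : ℝ) ≤ n := by exact_mod_cast hn
  apply Continuous.mul
  · apply Complex.continuous_ofReal.comp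
    apply Continuous.mul
    · exact Pool.Agent.H83.LS.H27.continuous_chis.comp (continuous_id.div_const _)
    · apply Continuous.rpow_const
      · exact (continuous_const.mul continuous_id).abs
      · intro x; right; linarith
  · exact (cont_ZL zm zb w v).comp (continuous_const.mul continuous_id)

theorem supp_gz (n : ℕ) (L Lam r : ℝ) (w v : EE n) (hL : 0 < Lam) :
    HasCompactSupport (gz n L Lam r w v) := by
  apply HasCompactSupport.intro (isCompact_Icc : IsCompact (Icc 0 (8 * Lam)))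
  intro s hs
  by_contra h
  apply hs
  unfold gz at h
  have h0 := left_ne_zero_of_mul h
  have h0' : chis (s / Lam) ≠ 0 := by
    intro h2
    apply h0
    rw [h2]
    simp
  have h1 := hchis _ h0'
  constructor
  · by_contra h
    push Not at h
    have : s / Lam < 0 := div_neg_of_neg_of_pos h hL
    linarith
  · have := (div_le_iff₀ hL).mp h1.2
    linarith

/-- conjugate form of the inversion formula -/
theorem gz_inv {n : ℕ} (hn : 2 ≤ n) {L C : ℝ}
    (zm : Measurable fun q : EE n × EE n => zk n L q.1 q.2)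
    (zb : ∀ u v : Sp n, |zk n L u v| ≤ C) (w v : Sp n) (Lam r : ℝ) (hL : 0 < Lam) (hr : 0 < r)
    (hi : Integrable fun x : ℝ =>
      ((Lam : ℝ) : ℂ) * kz n L (fun s => ((chis s : ℝ) : ℂ)) (Lam * x) (Lam * r) w v) (s : ℝ) :
    ∫ x : ℝ, (starRingEnd ℂ) (((Lam : ℝ) : ℂ) *
      kz n L (fun s => ((chis s : ℝ) : ℂ)) (Lam * x) (Lam * r) w v) * e (x * s) =
        (starRingEnd ℂ) (gz n L Lam r w v s) := by
  obtain ⟨g, hg⟩ : ∃ g : ℝ → ℂ, g = gz n L Lam r w v := ⟨_, rfl⟩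
  have hgc : Continuous g := by rw [hg]; exact cont_gz hn zm zb w v Lam r
  have hgs : HasCompactSupport g := by rw [hg]; exact supp_gz n L Lam r w v hL
  have hgi : Integrable g := hgc.integrable_of_hasCompactSupport hgs
  have h1 : (fun x : ℝ => ((Lam : ℝ) : ℂ) *
      kz n L (fun s => ((chis s : ℝ) : ℂ)) (Lam * x) (Lam * r) w v) = 𝓕⁻ g := by
    ext x
    rw [kz_eq n L Lam x r w v hL hr, hg, Real.fourierInv_eq']
    congr 1
  have h2 : Integrable (𝓕⁻ g) := by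
    rw [← h1]; exact hi
  have h3 : Integrable (𝓕 g) := by
    have h4 : 𝓕 g = fun x => 𝓕⁻ g (-x) := by
      ext x; rw [Real.fourierInv_eq_fourier_neg, neg_neg]
    rw [h4]
    exact h2.comp_neg
  have h5 := hgc.fourier_fourierInv_eq hgi h3
  have h6 : 𝓕 (𝓕⁻ g) s = g s := by rw [h5]
  rw [← h1, Real.fourier_real_eq_integral_exp_smul] at h6
  rw [hg] at h6
  rw [← h6, ← integral_conj]
  congr 1
  ext x
  rw [smul_eq_mul, map_mul (starRingEnd ℂ) (Complex.exp _) _, mul_comm]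
  congr 1
  rw [show x * s = -(-(x * s)) by ring, ← conj_e]
  congr 1
  unfold e
  congr 2
  push_cast
  ring

theorem int_kz {n : ℕ} (hn : 2 ≤ n) (hKW : T_KW) {L C : ℝ} (hL1 : 1 ≤ L)
    (zm : Measurable fun q : EE n × EE n => zk n L q.1 q.2)
    (zb : ∀ u v : Sp n, |zk n L u v| ≤ C) (w v : Sp n) (Lam r : ℝ) (hL : 0 < Lam) (hr : 0 < r)
    (hLr : L ^ 2 ≤ Lam * r) :
    Integrable fun x : ℝ =>
      ((Lam : ℝ) : ℂ) * kz n L (fun s => ((chis s : ℝ) : ℂ)) (Lam * x) (Lam * r) w v := by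
  obtain ⟨D, hD, hk⟩ := hKW n 2 hn
  have hb : Integrable fun x : ℝ => D * Lam * (((1 + |Lam * x - Lam * r|) ^ 2)⁻¹ +
      ((1 + |Lam * x + Lam * r|) ^ 2)⁻¹) * bz n L w v := by
    have h1 := (integrable_w2.comp_sub_right (Lam * r)).comp_mul_left' hL.ne'
    have h2 := (integrable_w2.comp_add_right (Lam * r)).comp_mul_left' hL.ne'
    exact ((h1.add h2).const_mul (D * Lam)).mul_const _
  refine hb.mono' ?_ (Filter.Eventually.of_forall fun x => (hk L Lam x r w v hL1 hL hLr).2)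
  have h3 : (fun x : ℝ => ((Lam : ℝ) : ℂ) *
      kz n L (fun s => ((chis s : ℝ) : ℂ)) (Lam * x) (Lam * r) w v) =
      fun x : ℝ => ∫ s : ℝ, e (x * s) * gz n L Lam r w v s := by
    ext x
    exact kz_eq n L Lam x r w v hL hr
  rw [h3]
  have h : Measurable (fun q : ℝ × ℝ => e (q.1 * q.2) * gz n L Lam r w v q.2) := by
    apply Measurable.mul
    · exact measurable_e.comp (by fun_prop)
    · exact (cont_gz hn zm zb w v Lam r).measurable.comp measurable_snd
  exact (StronglyMeasurable.integral_prod_right' (ν := volume) h.stronglyMeasurable).aestronglyMeasurable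

/-- integrability of `GT` -/
theorem int_GT (hGO : T_GO) {n : ℕ} (hn : 2 ≤ n) {L Lam B : ℝ} (hL : 1 ≤ L) (hLam : 0 < Lam)
    {f : EE (n + 1) → ℂ} (hf : BCd B f) (hs : ∀ x, f x ≠ 0 → L ^ 2 ≤ Lam * hor x) (v : Sp n) :
    Integrable (GT n L Lam f v) := by
  obtain ⟨C, hC, h⟩ := (hGO n hn).1
  obtain ⟨R, hR⟩ := hf.2.2
  have hB := bcd_nonneg hf
  have hn' : (2 : ℝ) ≤ n := by exact_mod_cast hn
  have hA : ∀ x, hor x ^ (((n : ℝ) - 1) / 2) * ‖f x‖ ≤ |R| ^ (((n : ℝ) - 1) / 2) * B := by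
    intro x
    by_cases hx : f x = 0
    · rw [hx, norm_zero, mul_zero]; positivity
    · have h1 : ‖x‖ ≤ R := by
        by_contra h2
        push Not at h2
        exact hx (hR x h2)
      have h2 : hor x ≤ |R| := (Pool.Agent.H54.LS.hor_le_norm x).trans (h1.trans (le_abs_self R))
      have h3 := Pool.Agent.H54.LS.hor_nonneg x
      have h4 : (0 : ℝ) ≤ ((n : ℝ) - 1) / 2 := by linarith
      gcongr
      exact hf.2.1 x
  exact (h L Lam _ B f hL hLam hf hs hA).2.1 v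

/-- the reduction for a general symbol -/
theorem ro_gen (hRA : T_RA) (hKW : T_KW) (hGO : T_GO) (hZB : T_ZB) {n : ℕ} (hn : 2 ≤ n)
    {L Lam t B r z : ℝ} {f : EE (n + 1) → ℂ} (w v : Sp n) (hL : 1 ≤ L) (hLam : 0 < Lam)
    (hf : BCd B f) (hs : ∀ x, f x ≠ 0 → L ^ 2 ≤ Lam * hor x) (hr : 0 < r)
    (hLr : L ^ 2 ≤ Lam * r) (b : ℝ × ℝ → ℂ) (hb : Integrable b) :
    ∫ x₁ : ℝ, (starRingEnd ℂ) (((Lam : ℝ) : ℂ) *
        kz n L (fun s => ((chis s : ℝ) : ℂ)) (Lam * x₁) (Lam * r) w v) *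
      cv (kg t b) (GT n L Lam f v) (x₁, z) =
    ∫ ζ in {ζ : ℝ × ℝ | 0 < ζ.1}, e (z * ζ.2 + t * Real.sqrt (ζ.1 ^ 2 + ζ.2 ^ 2)) *
      (b ζ * (((chis (ζ.1 / Lam) * chi (ζ.1 / Lam) *
        ((r * ζ.1) ^ (((n : ℝ) - 1) / 2) * ζ.1 ^ (((n : ℝ) - 1) / 2)) : ℝ) : ℂ) *
      ((starRingEnd ℂ) (ZL n L (r * ζ.1) w v) * 𝓕 (AL L f) (jo (ζ.1 • (v : EE n)) ζ.2)))) := by
  obtain ⟨C₀, hC₀⟩ := hZB n (by omega)
  obtain ⟨zm, -, z0, zb, -, -, -⟩ := hC₀ L hL
  have zb' : ∀ u v : Sp n, |zk n L u v| ≤ C₀ * L ^ (n - 1) := by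
    intro u v
    rw [abs_of_nonneg (z0 _ _)]
    exact zb _ _ (norm_sp _) (norm_sp _)
  have hki := int_kz hn hKW hL zm zb' w v Lam r hLam hr hLr
  have hGi := int_GT hGO hn hL hLam hf hs v
  obtain ⟨κ, hκ⟩ : ∃ κ : ℝ → ℂ, κ = fun x : ℝ => ((Lam : ℝ) : ℂ) *
      kz n L (fun s => ((chis s : ℝ) : ℂ)) (Lam * x) (Lam * r) w v := ⟨_, rfl⟩
  rw [← hκ] at hki
  have hinv : ∀ s : ℝ, ∫ x : ℝ, (starRingEnd ℂ) (κ x) * e (x * s) =
      (starRingEnd ℂ) (gz n L Lam r w v s) := by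
    intro s
    rw [hκ]
    exact gz_inv hn zm zb' w v Lam r hLam hr (by rw [hκ] at hki; exact hki) s
  obtain ⟨G, hG⟩ : ∃ G, G = GT n L Lam f v := ⟨_, rfl⟩
  rw [← hG] at hGi ⊢
  obtain ⟨b', hb'⟩ : ∃ b' : ℝ × ℝ → ℂ, b' = fun ξ =>
    e (z * ξ.2 + t * Real.sqrt (ξ.1 ^ 2 + ξ.2 ^ 2)) * (b ξ * Ff G ξ) := ⟨_, rfl⟩
  have hFfm : Measurable (Ff G) := by
    apply Continuous.measurable
    unfold Ff
    refine continuous_of_dominated (bound := fun y => ‖G y‖) ?_ ?_ hGi.norm ?_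
    · intro ξ
      exact ((measurable_e.comp (by fun_prop)).aestronglyMeasurable).mul hGi.1
    · intro ξ
      refine ae_of_all _ fun y => ?_
      rw [norm_mul, norm_e, one_mul]
    · refine ae_of_all _ fun y => ?_
      exact (continuous_e.comp (by fun_prop)).mul continuous_const
  have hFfb : ∀ ξ, ‖Ff G ξ‖ ≤ ∫ y, ‖G y‖ := by
    intro ξ
    unfold Ff
    refine (norm_integral_le_integral_norm _).trans (le_of_eq ?_)
    congr 1; ext y
    rw [norm_mul, norm_e, one_mul]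
  have hbi : Integrable b' := by
    rw [hb']
    have h3 : Integrable (fun ξ => b ξ * Ff G ξ) :=
      hb.mul_bdd (c := ∫ y, ‖G y‖) hFfm.aestronglyMeasurable
        (Filter.Eventually.of_forall hFfb)
    apply h3.bdd_mul (c := 1)
    · exact (continuous_e.comp (by fun_prop)).aestronglyMeasurable
    · exact Filter.Eventually.of_forall (fun ζ => (norm_e _).le)
  have hki' : Integrable (fun x₁ => (starRingEnd ℂ) (κ x₁)) := by
    refine hki.norm.mono' ?_ (Filter.Eventually.of_forall (fun x => ?_))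
    · exact Complex.continuous_conj.comp_aestronglyMeasurable hki.1
    · rw [RCLike.norm_conj]
  have hint : Integrable (fun q : ℝ × (ℝ × ℝ) => e (q.1 * q.2.1) *
      ((starRingEnd ℂ) (κ q.1) * b' q.2)) := by
    apply (hki'.mul_prod hbi).bdd_mul (c := 1)
    · exact (measurable_e.comp (by fun_prop)).aestronglyMeasurable
    · exact Filter.Eventually.of_forall (fun ζ => (norm_e _).le)
  have hRA' := fun ζ => hRA n L Lam B f v ζ hn hL hLam hf hs
  rw [← hG] at hRA'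
  calc
    _ = ∫ x₁ : ℝ, ∫ ξ : ℝ × ℝ, e (x₁ * ξ.1) * ((starRingEnd ℂ) (κ x₁) * b' ξ) := by
        congr 1
        ext x₁
        rw [cv_kg t b hb G hGi, ← integral_const_mul]
        congr 1
        ext ξ
        rw [hb', hκ]
        simp only
        rw [show x₁ * ξ.1 + z * ξ.2 + t * Real.sqrt (ξ.1 ^ 2 + ξ.2 ^ 2) =
          x₁ * ξ.1 + (z * ξ.2 + t * Real.sqrt (ξ.1 ^ 2 + ξ.2 ^ 2)) by ring, e_add]
        ring
    _ = ∫ ξ : ℝ × ℝ, ∫ x₁ : ℝ, e (x₁ * ξ.1) * ((starRingEnd ℂ) (κ x₁) * b' ξ) :=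
        integral_integral_swap hint
    _ = ∫ ξ : ℝ × ℝ, (starRingEnd ℂ) (gz n L Lam r w v ξ.1) * b' ξ := by
        congr 1
        ext ξ
        rw [← hinv, ← integral_mul_const]
        congr 1
        ext x₁
        ring
    _ = _ := by
        rw [← integral_indicator (s := {ζ : ℝ × ℝ | 0 < ζ.1}) HP_meas]
        congr 1
        ext ξ
        by_cases hξ : 0 < ξ.1
        · rw [indicator_of_mem (show ξ ∈ {ζ : ℝ × ℝ | 0 < ζ.1} from hξ), hb']
          simp only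
          rw [hRA' ξ, if_pos hξ]
          unfold gz
          rw [map_mul, Complex.conj_ofReal, abs_of_pos (mul_pos hr hξ)]
          push_cast
          ring
        · rw [indicator_of_notMem (show ξ ∉ {ζ : ℝ × ℝ | 0 < ζ.1} from hξ)]
          push Not at hξ
          rw [gz_neg n L Lam r _ _ _ hLam hξ]
          simp

theorem KK_eq (t lam Lam : ℝ) : KK t lam Lam = kg t (aa lam Lam) := by
  ext x
  rfl

theorem pf_ro (hRA : T_RA) (hRB : T_RB) (hKW : T_KW) (hGO : T_GO) (_hBZ : T_BZ) (hZB : T_ZB) :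
    T_RO := by
  intro n L lam Lam t B r z f w hn hL hlam hLam hf hs hr hLr
  rw [hRB n L lam Lam t B r z f w hn hL hlam hLam hf hr]
  refine integral_congr_ae (ae_of_all _ fun v => ?_)
  simp only
  rw [KK_eq, ro_gen hRA hKW hGO hZB hn w v hL hLam hf hs hr hLr _ (integrable_aa lam Lam hlam)]
  refine setIntegral_congr_fun HP_meas fun ζ hζ => ?_
  unfold aa
  have h5 := Pool.Agent.H83.LS.H27.chis_sq_mul_chi (ζ.1 / Lam)
  have h6 : ((chis (ζ.1 / Lam) : ℝ) : ℂ) * ((chis (ζ.1 / Lam) : ℝ) : ℂ) *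
      ((chi (ζ.1 / Lam) : ℝ) : ℂ) = ((chi (ζ.1 / Lam) : ℝ) : ℂ) := by exact_mod_cast h5
  push_cast
  linear_combination (-(e (z * ζ.2 + t * Real.sqrt (ζ.1 ^ 2 + ζ.2 ^ 2)) *
    ((chi (Real.sqrt (ζ.1 ^ 2 + ζ.2 ^ 2) / lam) : ℝ) : ℂ) *
    (((r * ζ.1) ^ (((n : ℝ) - 1) / 2) : ℝ) : ℂ) * ((ζ.1 ^ (((n : ℝ) - 1) / 2) : ℝ) : ℂ) *
    ((starRingEnd ℂ) (ZL n L (r * ζ.1) w v) * 𝓕 (AL L f) (jo (ζ.1 • (v : EE n)) ζ.2)))) * h6

end Pool.Agent.H33.AR
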