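import Pool.Agent.H33.AR.RO
import Pool.Agent.H83.AR.Targets2

/-! Module RO2: reduction of the pieces to the plane, with a cutoff of the last frequency. -/

set_option autoImplicit false

namespace Pool.Agent.H33.AR

open MeasureTheory Set FourierTransform
open Pool.Agent.H83.LS Pool.Agent.H93.AR Pool.Agent.H54.LS Pool.Agent.H14.LS Pool.Agent.H83.AR
open Pool.Agent.H83.LS.H27 (aa measurable_aa integrable_aa integrable_w2 hchis)
open scoped ENNReal NNReal SchwartzMap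

/-- the symbol of `KK2` without the oscillating factor -/
noncomputable def aa2 (lam Lam M : ℝ) (ξ : ℝ × ℝ) : ℂ :=
  ((chi (Real.sqrt (ξ.1 ^ 2 + ξ.2 ^ 2) / lam) * chis (ξ.1 / Lam) * chis (ξ.2 / M) : ℝ) : ℂ)

theorem aa2_eq (lam Lam M : ℝ) (ξ : ℝ × ℝ) :
    aa2 lam Lam M ξ = aa lam Lam ξ * ((chis (ξ.2 / M) : ℝ) : ℂ) := by
  unfold aa2 aa
  push_cast
  ring

theorem integrable_aa2 (lam Lam M : ℝ) (hlam : 0 < lam) : Integrable (aa2 lam Lam M) := by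
  have h1 : aa2 lam Lam M = fun ξ => aa lam Lam ξ * ((chis (ξ.2 / M) : ℝ) : ℂ) := by
    ext ξ
    exact aa2_eq lam Lam M ξ
  rw [h1]
  apply (integrable_aa lam Lam hlam).mul_bdd (c := 1)
  · apply Measurable.aestronglyMeasurable
    apply Complex.measurable_ofReal.comp
    exact Pool.Agent.H83.LS.H27.continuous_chis.measurable.comp (by fun_prop)
  · refine Filter.Eventually.of_forall fun ξ => ?_
    rw [Complex.norm_real, Real.norm_eq_abs]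
    exact Pool.Agent.H83.LS.H27.abs_chis_le _

theorem KK2_eq (t lam Lam M : ℝ) : KK2 t lam Lam M = kg t (aa2 lam Lam M) := by
  ext x
  rfl

theorem pf_ro2 (hRA : T_RA) (hRB : T_RB2) (hKW : T_KW) (hGO : T_GO) (_hBZ : T_BZ)
    (hZB : T_ZB) : T_RO2 := by
  intro n L lam Lam M t B r z f w hn hL hlam hLam hM hf hs hr hLr
  rw [hRB n L lam Lam M t B r z f w hn hL hlam hLam hM hf hr]
  refine integral_congr_ae (ae_of_all _ fun v => ?_)
  simp only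
  rw [KK2_eq, ro_gen hRA hKW hGO hZB hn w v hL hLam hf hs hr hLr _
    (integrable_aa2 lam Lam M hlam)]
  refine setIntegral_congr_fun HP_meas fun ζ hζ => ?_
  unfold aa2
  have h5 := Pool.Agent.H83.LS.H27.chis_sq_mul_chi (ζ.1 / Lam)
  have h6 : ((chis (ζ.1 / Lam) : ℝ) : ℂ) * ((chis (ζ.1 / Lam) : ℝ) : ℂ) *
      ((chi (ζ.1 / Lam) : ℝ) : ℂ) = ((chi (ζ.1 / Lam) : ℝ) : ℂ) := by exact_mod_cast h5
  push_cast
  linear_combination (-(e (z * ζ.2 + t * Real.sqrt (ζ.1 ^ 2 + ζ.2 ^ 2)) *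
    ((chi (Real.sqrt (ζ.1 ^ 2 + ζ.2 ^ 2) / lam) : ℝ) : ℂ) * ((chis (ζ.2 / M) : ℝ) : ℂ) *
    (((r * ζ.1) ^ (((n : ℝ) - 1) / 2) : ℝ) : ℂ) * ((ζ.1 ^ (((n : ℝ) - 1) / 2) : ℝ) : ℂ) *
    ((starRingEnd ℂ) (ZL n L (r * ζ.1) w v) * 𝓕 (AL L f) (jo (ζ.1 • (v : EE n)) ζ.2)))) * h6

end Pool.Agent.H33.AR
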