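import Pool.Agent.H93.AR.Defs

/-! Module ZC: invariant symmetric kernels on the sphere commute. -/

set_option autoImplicit false

namespace Pool.Agent.H33.AR

open MeasureTheory Set Pool.Agent.H83.LS Pool.Agent.H93.AR Pool.Agent.H54.LS
open scoped ENNReal NNReal

lemma nsp {n : ℕ} (w : Sp n) : ‖(w : EE n)‖ = 1 := by
  have := w.2
  rwa [mem_sphere_zero_iff_norm] at this

/-- the homeomorphism of the sphere induced by a linear isometry -/
noncomputable def sphH (n : ℕ) (Q : EE n ≃ₗᵢ[ℝ] EE n) : Sp n ≃ₜ Sp n where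
  toFun w := ⟨Q w, by rw [mem_sphere_zero_iff_norm, Q.norm_map, nsp]⟩
  invFun w := ⟨Q.symm w, by rw [mem_sphere_zero_iff_norm, Q.symm.norm_map, nsp]⟩
  left_inv w := by ext1; simp
  right_inv w := by ext1; simp
  continuous_toFun := (Q.continuous.comp continuous_subtype_val).subtype_mk _
  continuous_invFun := (Q.symm.continuous.comp continuous_subtype_val).subtype_mk _

lemma sphH_coe (n : ℕ) (Q : EE n ≃ₗᵢ[ℝ] EE n) (w : Sp n) : ((sphH n Q w : Sp n) : EE n) = Q w := rfl

lemma mp_sphH (hSI : T_SI) (n : ℕ) (hn : 1 ≤ n) (Q : EE n ≃ₗᵢ[ℝ] EE n) :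
    MeasurePreserving (sphH n Q) (sg n) (sg n) := by
  refine ⟨(sphH n Q).continuous.measurable, ?_⟩
  ext A hA
  rw [Measure.map_apply (sphH n Q).continuous.measurable hA]
  have hS : MeasurableSet ((Subtype.val : Sp n → EE n) '' A) :=
    (Metric.isClosed_sphere.measurableSet).subtype_image hA
  have h1 := (hSI n Q hn).1 (((Subtype.val : Sp n → EE n) '' A).indicator 1)
    (measurable_one.indicator hS)
  have h2 : ∀ w : Sp n, ((Subtype.val : Sp n → EE n) '' A).indicator (1 : EE n → ℝ≥0∞) (w : EE n) =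
      A.indicator 1 w := by
    intro w
    by_cases hw : w ∈ A
    · rw [indicator_of_mem hw, indicator_of_mem (mem_image_of_mem _ hw)]
      rfl
    · rw [indicator_of_notMem hw, indicator_of_notMem]
      rintro ⟨w', hw', h3⟩
      exact hw (Subtype.ext h3 ▸ hw')
  have h3 : ∀ w : Sp n, ((Subtype.val : Sp n → EE n) '' A).indicator (1 : EE n → ℝ≥0∞) (Q w) =
      ((sphH n Q) ⁻¹' A).indicator 1 w := by
    intro w
    have := h2 (sphH n Q w)
    rw [sphH_coe] at this
    rw [this]
    rfl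
  simp_rw [h2, h3] at h1
  rw [lintegral_indicator_one hA,
    lintegral_indicator_one ((sphH n Q).continuous.measurable hA)] at h1
  exact h1

/-- invariance of the surface measure, arbitrary integrands -/
lemma sg_inv (hSI : T_SI) (n : ℕ) (hn : 1 ≤ n) (Q : EE n ≃ₗᵢ[ℝ] EE n) (h : EE n → ℂ) :
    ∫ w : Sp n, h (Q w) ∂(sg n) = ∫ w : Sp n, h w ∂(sg n) := by
  have h1 := (mp_sphH hSI n hn Q).integral_comp (sphH n Q).measurableEmbedding
    (fun w : Sp n => h w)
  exact h1

theorem pf_zc (hSI : T_SI) : T_ZC := by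
  intro n k₁ k₂ hn hQ hs u v hu hv
  let Q : EE n ≃ₗᵢ[ℝ] EE n := ((Submodule.span ℝ {u - v})ᗮ).reflection
  have hQu : Q u = v := Submodule.reflection_sub (by rw [hu, hv])
  have hQv : Q v = u := by
    rw [← hQu]
    exact Submodule.reflection_reflection _ u
  calc ∫ w : Sp n, k₁ u w * k₂ w v ∂(sg n)
      = ∫ w : Sp n, (fun x : EE n => k₁ v x * k₂ x u) (Q w) ∂(sg n) := by
        refine integral_congr_ae (ae_of_all _ fun w => ?_)
        simp only
        rw [← (hQ Q u w).1, ← (hQ Q w v).2, hQu, hQv]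
    _ = ∫ w : Sp n, k₁ v w * k₂ w u ∂(sg n) :=
        sg_inv hSI n hn Q (fun x : EE n => k₁ v x * k₂ x u)
    _ = ∫ w : Sp n, k₂ u w * k₁ w v ∂(sg n) := by
        refine integral_congr_ae (ae_of_all _ fun w => ?_)
        simp only
        rw [(hs v w hv (nsp w)).1, (hs w u (nsp w) hu).2, mul_comm]

end Pool.Agent.H33.AR
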